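import Pool.Agent.Run7.h325.HRT.Stm

/-!
# HRT, piece KUP (helper594): upper bounds of the resonant parts
-/

set_option autoImplicit false

namespace Pool.Agent.Run7.h594.HRT

open Real Pool.Agent.Run7.h325.HRT

theorem sg_abs (N : ℕ) : |sg N| ≤ 1 := by
  unfold sg
  refine (Complex.abs_im_le_norm _).trans ?_
  rw [norm_pow, Complex.norm_I, one_pow]

theorem b_nonneg (A : ℝ) (h0 : 0 ≤ A) (h1 : A ≤ 1) (N i : ℕ) : 0 ≤ b A N i := by
  unfold b
  have : 0 ≤ 1 - A := by linarith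
  positivity

theorem b_le_one (A : ℝ) (h0 : 0 ≤ A) (h1 : A ≤ 1) (N i : ℕ) (hi : i ≤ N) : b A N i ≤ 1 := by
  have h2 : ∑ j ∈ Finset.range (N + 1), A ^ j * (1 - A) ^ (N - j) * (N.choose j : ℝ) = 1 := by
    rw [← add_pow]
    simp
  have h3 : b A N i ≤ ∑ j ∈ Finset.range (N + 1), A ^ j * (1 - A) ^ (N - j) * (N.choose j : ℝ) := by
    have h4 : b A N i = A ^ i * (1 - A) ^ (N - i) * (N.choose i : ℝ) := by
      unfold b
      ring
    rw [h4]
    have h5 : 0 ≤ 1 - A := by linarith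
    exact Finset.single_le_sum (f := fun j => A ^ j * (1 - A) ^ (N - j) * (N.choose j : ℝ))
      (fun j _ => by positivity) (Finset.mem_range.2 (by omega))
  linarith

theorem D_pos : 0 < D := by
  unfold D
  positivity

theorem D_sq : D ^ 2 = 2 := by
  unfold D
  exact Real.sq_sqrt (by norm_num)

theorem D_lt : D < 3 / 2 := by
  have h1 := D_sq
  have h2 := D_pos
  nlinarith

theorem Nq_pos (m q : ℕ) : 0 < Nq m q := by
  unfold Nq
  positivity

theorem Nq_one (m q : ℕ) : (1 : ℝ) ≤ (Nq m q : ℝ) := by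
  exact_mod_cast Nq_pos m q

/-- `0 < ε` and `L² ε ≤ 3/80` -/
theorem eps_bd (hA : S_APROP) (m q L : ℕ) (hm : 1 ≤ m)
    (hL : 50 * L ^ 2 * (Nq m q) ^ 4 ≤ 5 ^ f m (q + 1)) :
    0 < eps m q ∧ (L : ℝ) ^ 2 * eps m q ≤ 3 / 80 := by
  obtain ⟨-, -, h⟩ := hA m hm
  obtain ⟨h1, h2, -⟩ := h q
  have hN := Nq_one m q
  have hN0 : (0 : ℝ) < Nq m q := by linarith
  have hP : (0 : ℝ) < (5 : ℝ) ^ f m (q + 1) := by positivity
  have hr : 0 < rho m q := lt_trans (by positivity) h1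
  have hD := D_pos
  refine ⟨by unfold eps; positivity, ?_⟩
  have h3 : (50 : ℝ) * L ^ 2 * (Nq m q : ℝ) ^ 4 ≤ (5 : ℝ) ^ f m (q + 1) := by exact_mod_cast hL
  have h4 : (50 : ℝ) * L ^ 2 * (Nq m q : ℝ) ≤ (5 : ℝ) ^ f m (q + 1) := by
    refine le_trans ?_ h3
    have : (Nq m q : ℝ) ≤ (Nq m q : ℝ) ^ 4 := le_self_pow₀ hN (by norm_num)
    exact mul_le_mul_of_nonneg_left this (by positivity)
  have h5 : (50 : ℝ) * L ^ 2 * (Nq m q : ℝ) * ((5 : ℝ) ^ f m (q + 1))⁻¹ ≤ 1 := by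
    rw [← div_eq_mul_inv, div_le_one hP]
    exact h4
  have h6 : (L : ℝ) ^ 2 * eps m q ≤
      D * (Nq m q : ℝ) * L ^ 2 * (5 / 4 * ((5 : ℝ) ^ f m (q + 1))⁻¹) := by
    unfold eps
    have := mul_le_mul_of_nonneg_left h2 (by positivity : 0 ≤ D * (Nq m q : ℝ) * (L : ℝ) ^ 2)
    linarith
  have h7 : D * (Nq m q : ℝ) * L ^ 2 * (5 / 4 * ((5 : ℝ) ^ f m (q + 1))⁻¹) =
      D * (1 / 40) * ((50 : ℝ) * L ^ 2 * (Nq m q : ℝ) * ((5 : ℝ) ^ f m (q + 1))⁻¹) := by ring
  rw [h7] at h6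
  have h8 := mul_le_mul_of_nonneg_left h5 (by positivity : 0 ≤ D * (1 / 40))
  have h9 := D_lt
  linarith

/-- bounds of `al` -/
theorem al_bd (hA : S_APROP) (m q L : ℕ) (hm : 1 ≤ m)
    (hL : 50 * L ^ 2 * (Nq m q) ^ 4 ≤ 5 ^ f m (q + 1)) (l : ℕ) (h1 : 1 ≤ l) (h2 : l ≤ L) :
    0 ≤ al m q l ∧ al m q l ≤ 1 / (2 * (l : ℝ) ^ 2 * eps m q) := by
  obtain ⟨he, he2⟩ := eps_bd hA m q L hm hL
  obtain ⟨hA0, hA1, hA2⟩ := hA m hm
  obtain ⟨-, -, -, hiq, -⟩ := hA2 q
  have hN := Nq_one m q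
  have hN0 : (0 : ℝ) < Nq m q := by linarith
  have hl : (1 : ℝ) ≤ l := by exact_mod_cast h1
  have hlL : (l : ℝ) ≤ L := by exact_mod_cast h2
  have h3 : (l : ℝ) * eps m q ≤ 3 / 80 := by
    have h4 : (l : ℝ) ≤ (L : ℝ) ^ 2 := by nlinarith
    exact (mul_le_mul_of_nonneg_right h4 he.le).trans he2
  have h4 : 0 < (l : ℝ) * eps m q := by positivity
  have hs : 2 * ((l : ℝ) * eps m q) ≤ Real.sin (Real.pi * (l * eps m q)) := by
    have h5 : Real.pi * (l * eps m q) ≤ Real.pi / 2 := by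
      have := Real.pi_pos
      nlinarith
    have h6 := Real.mul_le_sin (by positivity : 0 ≤ Real.pi * (l * eps m q)) h5
    refine le_trans (le_of_eq ?_) h6
    field_simp
  have hb0 := b_nonneg (Am m) hA0.le (by linarith) (l * Nq m q) (l * iq m q)
  have hb1 := b_le_one (Am m) hA0.le (by linarith) (l * Nq m q) (l * iq m q)
    (Nat.mul_le_mul_left _ (by omega))
  unfold al
  have hs0 : 0 < Real.sin (Real.pi * (l * eps m q)) := lt_of_lt_of_le (by positivity) hs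
  refine ⟨by positivity, ?_⟩
  have h5 : 2 * (l : ℝ) ^ 2 * eps m q ≤
      (l : ℝ) * Nq m q * Real.sin (Real.pi * (l * eps m q)) := by
    have h6 : (l : ℝ) * 1 ≤ (l : ℝ) * Nq m q := mul_le_mul_of_nonneg_left hN (by linarith)
    have h7 := mul_le_mul h6 hs (by positivity) (by positivity)
    refine le_trans (le_of_eq ?_) h7
    ring
  exact div_le_div₀ zero_le_one hb1 (by positivity) h5

theorem sum_sq (L : ℕ) : ∑ l ∈ Finset.Icc 1 L, 1 / (l : ℝ) ^ 2 ≤ 2 := by
  have h : ∀ L : ℕ, 1 ≤ L → ∑ l ∈ Finset.Icc 1 L, 1 / (l : ℝ) ^ 2 ≤ 2 - 1 / (L : ℝ) := by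
    intro L hL
    induction L, hL using Nat.le_induction with
    | base => norm_num
    | succ n hn ih =>
      rw [Finset.sum_Icc_succ_top (by omega)]
      have hn0 : (0 : ℝ) < n := by exact_mod_cast hn
      have h1 : 1 / ((n + 1 : ℕ) : ℝ) ^ 2 ≤ 1 / (n : ℝ) - 1 / ((n + 1 : ℕ) : ℝ) := by
        push_cast
        rw [div_sub_div _ _ hn0.ne' (by positivity), div_le_div_iff₀ (by positivity) (by positivity)]
        nlinarith
      linarith
  rcases Nat.eq_zero_or_pos L with rfl | hL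
  · simp
  · have h1 := h L hL
    have h2 : (0 : ℝ) ≤ 1 / (L : ℝ) := by positivity
    linarith

theorem t_KUP : S_APROP → S_KUP := by
  intro hA m q L hm hL
  obtain ⟨he, he2⟩ := eps_bd hA m q L hm hL
  have hterm : ∀ (y : ℝ), ∀ l ∈ Finset.Icc 1 L,
      |sg l * al m q l * (1 - Real.cos (2 * Real.pi * (l * eps m q * y)))| ≤
        1 / (2 * (l : ℝ) ^ 2 * eps m q) * (1 - Real.cos (2 * Real.pi * (l * eps m q * y))) := by
    intro y l hl
    obtain ⟨h1, h2⟩ := Finset.mem_Icc.1 hl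
    obtain ⟨h3, h4⟩ := al_bd hA m q L hm hL l h1 h2
    have h5 : 0 ≤ 1 - Real.cos (2 * Real.pi * (l * eps m q * y)) := by
      linarith [Real.cos_le_one (2 * Real.pi * (l * eps m q * y))]
    rw [abs_mul, abs_mul, abs_of_nonneg h3, abs_of_nonneg h5]
    have h6 : |sg l| * al m q l ≤ 1 * (1 / (2 * (l : ℝ) ^ 2 * eps m q)) :=
      mul_le_mul (sg_abs l) h4 h3 zero_le_one
    rw [one_mul] at h6
    exact mul_le_mul_of_nonneg_right h6 h5
  constructor
  · intro x
    unfold K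
    refine (Finset.abs_sum_le_sum_abs _ _).trans ?_
    have h1 : ∀ l ∈ Finset.Icc 1 L,
        |sg l * al m q l * (1 - Real.cos (2 * Real.pi * (l * eps m q * x)))| ≤
          10 * eps m q * x ^ 2 := by
      intro l hl
      refine (hterm x l hl).trans ?_
      obtain ⟨h1, h2⟩ := Finset.mem_Icc.1 hl
      have hl0 : (0 : ℝ) < l := by exact_mod_cast h1
      have h3 : 1 - Real.cos (2 * Real.pi * (l * eps m q * x)) ≤
          (2 * Real.pi * (l * eps m q * x)) ^ 2 / 2 := by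
        linarith [Real.one_sub_sq_div_two_le_cos (x := 2 * Real.pi * (l * eps m q * x))]
      refine (mul_le_mul_of_nonneg_left h3 (by positivity)).trans ?_
      have h4 : 1 / (2 * (l : ℝ) ^ 2 * eps m q) * ((2 * Real.pi * (l * eps m q * x)) ^ 2 / 2) =
          Real.pi ^ 2 * (eps m q * x ^ 2) := by
        field_simp
      rw [h4]
      have h5 : Real.pi ^ 2 ≤ 10 := by
        have := Real.pi_lt_d2
        have := Real.pi_pos
        nlinarith
      have h6 := mul_le_mul_of_nonneg_right h5 (by positivity : 0 ≤ eps m q * x ^ 2)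
      linarith
    refine (Finset.sum_le_sum h1).trans ?_
    rw [Finset.sum_const, Nat.card_Icc, nsmul_eq_mul, Nat.add_sub_cancel]
    rcases Nat.eq_zero_or_pos L with h0 | h0
    · rw [h0]
      push_cast
      nlinarith [sq_nonneg x]
    · have hL1 : (1 : ℝ) ≤ L := by exact_mod_cast h0
      have h2 : (L : ℝ) * eps m q ≤ 1 := by
        have h3 : (L : ℝ) ≤ (L : ℝ) ^ 2 := le_self_pow₀ hL1 (by norm_num)
        have := mul_le_mul_of_nonneg_right h3 he.le
        linarith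
      have h3 := mul_le_mul_of_nonneg_right h2 (by positivity : 0 ≤ 10 * x ^ 2)
      linarith
  · intro y
    unfold K
    refine (Finset.abs_sum_le_sum_abs _ _).trans ?_
    have h1 : ∀ l ∈ Finset.Icc 1 L,
        |sg l * al m q l * (1 - Real.cos (2 * Real.pi * (l * eps m q * y)))| ≤
          1 / eps m q * (1 / (l : ℝ) ^ 2) := by
      intro l hl
      refine (hterm y l hl).trans ?_
      obtain ⟨h1, h2⟩ := Finset.mem_Icc.1 hl
      have hl0 : (0 : ℝ) < l := by exact_mod_cast h1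
      have h3 : 1 - Real.cos (2 * Real.pi * (l * eps m q * y)) ≤ 2 := by
        linarith [Real.neg_one_le_cos (2 * Real.pi * (l * eps m q * y))]
      refine (mul_le_mul_of_nonneg_left h3 (by positivity)).trans (le_of_eq ?_)
      field_simp
    refine (Finset.sum_le_sum h1).trans ?_
    rw [← Finset.mul_sum]
    have h2 := mul_le_mul_of_nonneg_left (sum_sq L) (by positivity : 0 ≤ 1 / eps m q)
    refine h2.trans (le_of_eq ?_)
    ring

end Pool.Agent.Run7.h594.HRT
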